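import Pool.Agent.helper67.RG.Spec

/-!
# Project rg, row FLG: a flag with strongly irreducible factors on an open subgroup
-/

set_option autoImplicit false

namespace Pool.Agent.RG.FLG

open Matrix Polynomial Pool.Agent.GO Pool.Agent.AR Pool.Agent.RG

section aux

variable {Γ F m : Type*} [Group Γ] [TopologicalSpace Γ] [IsTopologicalGroup Γ]
  [CompactSpace Γ] [Field F] [TopologicalSpace F] [IsTopologicalRing F] [T2Space F] [Fintype m]
  [DecidableEq m]

omit [CompactSpace Γ] in
/-- the stabiliser of a subspace containing a subgroup of finite index of an open subgroup -/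
theorem FLG_stab (V : Γ →* Matrix m m F) (hV : Continuous V) (U : Subgroup Γ)
    (hU : IsOpen (U : Set Γ)) (H : Subgroup U) (hH : H.FiniteIndex)
    (W : Submodule F (m → F)) (hW : ∀ h ∈ H, ∀ x ∈ W, (V.comp U.subtype) h *ᵥ x ∈ W) :
    ∃ S : Subgroup Γ, S ≤ U ∧ IsOpen (S : Set Γ) ∧ ∀ s ∈ S, ∀ x ∈ W, V s *ᵥ x ∈ W := by
  obtain ⟨W', hW'⟩ := W.exists_isCompl
  have hWclosed : IsClosed (W : Set (m → F)) := by
    let pr : (m → F) →ₗ[F] (m → F) := W'.subtype ∘ₗ W'.projectionOnto W hW'.symm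
    have hpr : Continuous pr := LinearMap.continuous_on_pi pr
    have h1 : (W : Set (m → F)) = pr ⁻¹' {0} := by
      ext x
      rw [SetLike.mem_coe, Set.mem_preimage, Set.mem_singleton_iff]
      show _ ↔ ((W'.projectionOnto W hW'.symm x : W') : m → F) = 0
      rw [ZeroMemClass.coe_eq_zero]
      exact (Submodule.projectionOnto_apply_eq_zero_iff hW'.symm).symm
    rw [h1]
    exact isClosed_singleton.preimage hpr
  let S : Subgroup U :=
    { carrier := {g | (∀ w ∈ W, V g.1 *ᵥ w ∈ W) ∧ ∀ w ∈ W, V (g⁻¹ : U).1 *ᵥ w ∈ W}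
      one_mem' := by
        refine ⟨fun w hw => ?_, fun w hw => ?_⟩
        · rw [Subgroup.coe_one, map_one, Matrix.one_mulVec]; exact hw
        · rw [inv_one, Subgroup.coe_one, map_one, Matrix.one_mulVec]; exact hw
      mul_mem' := by
        rintro a b ⟨ha, ha'⟩ ⟨hb, hb'⟩
        refine ⟨fun w hw => ?_, fun w hw => ?_⟩
        · rw [Subgroup.coe_mul, map_mul, ← Matrix.mulVec_mulVec]
          exact ha _ (hb _ hw)
        · rw [_root_.mul_inv_rev, Subgroup.coe_mul, map_mul, ← Matrix.mulVec_mulVec]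
          exact hb' _ (ha' _ hw)
      inv_mem' := by
        rintro a ⟨ha, ha'⟩
        exact ⟨ha', by rw [inv_inv]; exact ha⟩ }
  have hHS : H ≤ S := fun g hg =>
    ⟨fun w hw => hW g hg w hw, fun w hw => hW g⁻¹ (H.inv_mem hg) w hw⟩
  have hSfi : S.FiniteIndex := Subgroup.finiteIndex_of_le hHS
  have hcont : ∀ w : m → F, Continuous fun g : U => V g.1 *ᵥ w := fun w =>
    (hV.comp continuous_subtype_val).matrix_mulVec continuous_const
  have hSclosed : IsClosed (S : Set U) := by
    have h1 : (S : Set U) = (⋂ w ∈ W, (fun g : U => V g.1 *ᵥ w) ⁻¹' (W : Set (m → F))) ∩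
        ⋂ w ∈ W, (fun g : U => V (g⁻¹ : U).1 *ᵥ w) ⁻¹' (W : Set (m → F)) := by
      ext g
      simp only [Set.mem_inter_iff, Set.mem_iInter, Set.mem_preimage, SetLike.mem_coe]
      rfl
    rw [h1]
    refine IsClosed.inter ?_ ?_
    · exact isClosed_biInter fun w _ => hWclosed.preimage (hcont w)
    · exact isClosed_biInter fun w _ =>
        hWclosed.preimage ((hcont w).comp continuous_inv)
  have hSopen := Subgroup.isOpen_of_isClosed_of_finiteIndex S hSclosed
  refine ⟨S.map U.subtype, ?_, ?_, ?_⟩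
  · rintro _ ⟨g, _, rfl⟩
    exact g.2
  · have := hU.isOpenMap_subtype_val _ hSopen
    exact this
  · rintro _ ⟨g, hg, rfl⟩ x hx
    exact hg.1 x hx

/-- the chain `⊥ < ⊤` -/
def FLG_two : ℕ → Submodule F (m → F)
  | 0 => ⊥
  | _ + 1 => ⊤

/-- insert `B` between `c i` and `c (i + 1)` -/
noncomputable def FLG_ins (c : ℕ → Submodule F (m → F)) (B : Submodule F (m → F)) (i j : ℕ) :
    Submodule F (m → F) :=
  if j ≤ i then c j else if j = i + 1 then B else c (j - 1)

omit [TopologicalSpace F] [IsTopologicalRing F] [T2Space F] [Fintype m] [DecidableEq m] in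
theorem FLG_ins_le {c : ℕ → Submodule F (m → F)} {B : Submodule F (m → F)} {i j : ℕ}
    (h : j ≤ i) : FLG_ins c B i j = c j := if_pos h

omit [TopologicalSpace F] [IsTopologicalRing F] [T2Space F] [Fintype m] [DecidableEq m] in
theorem FLG_ins_eq {c : ℕ → Submodule F (m → F)} {B : Submodule F (m → F)} {i : ℕ} :
    FLG_ins c B i (i + 1) = B := by
  unfold FLG_ins
  rw [if_neg (by omega), if_pos rfl]

omit [TopologicalSpace F] [IsTopologicalRing F] [T2Space F] [Fintype m] [DecidableEq m] in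
theorem FLG_ins_gt {c : ℕ → Submodule F (m → F)} {B : Submodule F (m → F)} {i j : ℕ}
    (h : i < j) : FLG_ins c B i (j + 1) = c j := by
  unfold FLG_ins
  rw [if_neg (by omega), if_neg (by omega), Nat.add_sub_cancel]

/-- chains of length `N` -/
def FLG_P (V : Γ →* Matrix m m F) (U₀ : Subgroup Γ) (N : ℕ) : Prop :=
  ∃ U : Subgroup Γ, U ≤ U₀ ∧ IsOpen (U : Set Γ) ∧ ∃ c : ℕ → Submodule F (m → F),
    c 0 = ⊥ ∧ c N = ⊤ ∧ (∀ i < N, c i < c (i + 1)) ∧
    ∀ i ≤ N, ∀ u ∈ U, ∀ x ∈ c i, V u *ᵥ x ∈ c i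

omit [IsTopologicalGroup Γ] [CompactSpace Γ] [TopologicalSpace F] [IsTopologicalRing F]
  [T2Space F] in
theorem FLG_bound (V : Γ →* Matrix m m F) (U₀ : Subgroup Γ) (N : ℕ) (h : FLG_P V U₀ N) :
    N ≤ Fintype.card m := by
  obtain ⟨U, -, -, c, h0, hN, hlt, -⟩ := h
  have key : ∀ i ≤ N, i ≤ Module.finrank F (c i) := by
    intro i
    induction i with
    | zero => intro _; exact Nat.zero_le _
    | succ i ih =>
      intro hi
      have h1 := ih (by omega)
      have h2 := Submodule.finrank_lt_finrank_of_lt (hlt i (by omega))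
      omega
  have h1 := key N le_rfl
  rw [hN, finrank_top, Module.finrank_fintype_fun_eq_card] at h1
  exact h1

omit [IsTopologicalGroup Γ] [CompactSpace Γ] [TopologicalSpace F] [IsTopologicalRing F]
  [T2Space F] in
theorem FLG_ne (V : Γ →* Matrix m m F) (U₀ : Subgroup Γ) (hU₀ : IsOpen (U₀ : Set Γ)) :
    ∃ N, FLG_P V U₀ N := by
  by_cases hb : (⊥ : Submodule F (m → F)) = ⊤
  · refine ⟨0, U₀, le_rfl, hU₀, fun _ => ⊥, rfl, hb, fun i hi => absurd hi (by omega), ?_⟩
    intro i _ u _ x hx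
    rw [Submodule.mem_bot] at hx ⊢
    rw [hx, Matrix.mulVec_zero]
  · refine ⟨1, U₀, le_rfl, hU₀, FLG_two, rfl, rfl, ?_, ?_⟩
    · intro i hi
      have : i = 0 := by omega
      subst this
      show (⊥ : Submodule F (m → F)) < ⊤
      exact lt_of_le_of_ne bot_le hb
    · intro i _ u _ x hx
      cases i with
      | zero =>
        have hx' : x ∈ (⊥ : Submodule F (m → F)) := hx
        rw [Submodule.mem_bot] at hx'
        show V u *ᵥ x ∈ (⊥ : Submodule F (m → F))
        rw [Submodule.mem_bot, hx', Matrix.mulVec_zero]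
      | succ i => exact Submodule.mem_top

end aux

theorem FLG : FLG_stmt := by
  intro Γ F m _ _ _ _ _ _ _ _ _ _ V hV U₀ hU₀
  have hbdd : BddAbove {N | FLG_P V U₀ N} := ⟨Fintype.card m, fun N hN => FLG_bound V U₀ N hN⟩
  have hne : {N | FLG_P V U₀ N}.Nonempty := FLG_ne V U₀ hU₀
  have hmem := Nat.sSup_mem hne hbdd
  have hmax : ∀ N, FLG_P V U₀ N → N ≤ sSup {N | FLG_P V U₀ N} := fun N hN => le_csSup hbdd hN
  set N : ℕ := sSup {N | FLG_P V U₀ N} with hNdef
  obtain ⟨U, hUU, hUo, c, h0, hN, hlt, hst⟩ := hmem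
  refine ⟨U, hUU, hUo, N, c, h0, hN, hlt, ?_, ?_⟩
  · intro i hi g x hx
    exact hst i hi g.1 g.2 x hx
  · intro i hi H hH B hB hB1 hB2
    by_contra hnot
    rw [not_or] at hnot
    obtain ⟨hn1, hn2⟩ := hnot
    obtain ⟨S, hSU, hSo, hSB⟩ := FLG_stab V hV U hUo H hH B hB
    have hlt1 : c i < B := lt_of_le_of_ne hB1 (Ne.symm hn1)
    have hlt2 : B < c (i + 1) := lt_of_le_of_ne hB2 hn2
    have hP : FLG_P V U₀ (N + 1) := by
      refine ⟨S, hSU.trans hUU, hSo, FLG_ins c B i, ?_, ?_, ?_, ?_⟩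
      · rw [FLG_ins_le (Nat.zero_le i), h0]
      · rw [FLG_ins_gt hi, hN]
      · intro j hj
        rcases lt_trichotomy j i with h | h | h
        · rw [FLG_ins_le h.le, FLG_ins_le h]
          exact hlt j (by omega)
        · subst h
          rw [FLG_ins_le le_rfl, FLG_ins_eq]
          exact hlt1
        · obtain ⟨k, rfl⟩ : ∃ k, j = k + 1 := ⟨j - 1, by omega⟩
          by_cases h' : k = i
          · subst h'
            rw [FLG_ins_eq, FLG_ins_gt (by omega)]
            exact hlt2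
          · rw [FLG_ins_gt (by omega), FLG_ins_gt (by omega)]
            exact hlt k (by omega)
      · intro j hj u hu x hx
        by_cases h1 : j ≤ i
        · rw [FLG_ins_le h1] at hx ⊢
          exact hst j (by omega) u (hSU hu) x hx
        · obtain ⟨k, rfl⟩ : ∃ k, j = k + 1 := ⟨j - 1, by omega⟩
          by_cases h2 : k = i
          · subst h2
            rw [FLG_ins_eq] at hx ⊢
            exact hSB u hu x hx
          · rw [FLG_ins_gt (by omega)] at hx ⊢
            exact hst k (by omega) u (hSU hu) x hx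
    have := hmax (N + 1) hP
    omega

end Pool.Agent.RG.FLG
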